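import Pool.Agent.MP_77f003_co.H49.USpec

/-!
Clusters of finite orbits have bounded size.
-/

namespace Pool.Agent.MP_77f003_co.H49

open SimpleGraph Filter

variable {V : Type} {G : SimpleGraph V} [Fact G.Connected]

theorem rips_fatCl' {Y : Set V} {r K K' h : ℕ}
    (hb : ∀ u v : Y, K' ≤ (rips G Y r).dist u v → K + 2 * r ≤ G.dist u v)
    (H : FatCl (rips G Y r) K' h) : FatCl G K h := by
  obtain ⟨I, B, E, h1, h2, h3, h4, h5, h6⟩ := H
  let T : Set Y → Set V := fun S => {z | ∃ u ∈ S, G.dist u z ≤ r}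
  have k1 : ∀ {S} {u : Y} {z}, u ∈ S → G.dist u z ≤ r → Lk G (T S) u z := fun hu hz =>
    Lk.ball fun w hw => ⟨_, hu, hw.trans hz⟩
  have k2 : ∀ {S} {u v : Y}, Lk (rips G Y r) S u v → Lk G (T S) u v := by
    rintro S u v ⟨p, hp⟩
    induction p with
    | nil => exact k1 (hp _ (by simp)) (by simp)
    | cons hab q ih => exact (k1 (hp _ (by simp)) hab.2).trans (ih fun z hz => hp z (by simp [hz]))
  have k3 : ∀ {S S'}, Far (rips G Y r) K' S S' → Far G K (T S) (T S') := by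
    rintro S S' h z ⟨u, u1, u2⟩ w ⟨v, v1, v2⟩
    have e1 := hb u v (h u u1 v v1)
    have e2 := tri (G := G) u z v
    have e3 := tri (G := G) z w v
    rw [dcomm] at v2
    omega
  refine ⟨I, fun i => T (B i), fun i j => T (E i j), h1, fun i hi => ⟨?_, ?_⟩,
    fun i hi j hj hij => ?_, fun i hi j hj hij => k3 (h4 i hi j hj hij),
    fun i hi j hj k hk l hl e1 e2 e3 => k3 (h5 i hi j hj k hk l hl e1 e2 e3),
    fun i hi j hj k hk e1 e2 e3 => k3 (h6 i hi j hj k hk e1 e2 e3)⟩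
  · obtain ⟨u, hu⟩ := (h2 i hi).1
    exact ⟨u, u, hu, by simp⟩
  · rintro z ⟨u, u1, u2⟩ w ⟨v, v1, v2⟩
    exact ((k1 u1 u2).symm.trans (k2 ((h2 i hi).2 u u1 v v1))).trans (k1 v1 v2)
  · obtain ⟨u, u1, v, v1, l⟩ := h3 i hi j hj hij
    exact ⟨u, ⟨u, u1, by simp⟩, v, ⟨v, v1, by simp⟩, k2 l⟩

/-- The orbit of a cluster group is connected by short steps. -/
theorem cl_chain (W : Subgroup (G ≃g G)) (ρ : ℕ) (y : V) (Y : Set V) (hy : y ∈ Y)
    (hY : ∀ a ∈ Y, ∀ g ∈ Cl G W ρ {y}, G.dist a (g y) ≤ ρ → g y ∈ Y) :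
    ∀ g ∈ Cl G W ρ {y}, g y ∈ Y := by
  have key : ∀ w ∈ Cl G W ρ {y}, ∀ g ∈ Cl G W ρ {y}, (g y ∈ Y ↔ (g * w) y ∈ Y) := by
    intro w hw
    refine Subgroup.closure_induction (p := fun w _ => ∀ g ∈ Cl G W ρ {y},
      (g y ∈ Y ↔ (g * w) y ∈ Y)) ?_ ?_ ?_ ?_ hw
    · rintro w ⟨h1, x, rfl, z, rfl, h2⟩ g hg
      have h3 : w ∈ Cl G W ρ {z} := Subgroup.subset_closure ⟨h1, z, rfl, z, rfl, h2⟩
      have h4 : G.dist (g z) ((g * w) z) ≤ ρ := by
        rw [RelIso.mul_apply, dist_iso]; exact h2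
      exact ⟨fun h => hY _ h _ (mul_mem hg h3) h4, fun h => hY _ h _ hg (by rwa [dcomm])⟩
    · intro g _
      rw [mul_one]
    · intro a b ha _ h1 h2 g hg
      rw [h1 g hg, h2 (g * a) (mul_mem hg ha), mul_assoc]
    · intro a ha h1 g hg
      rw [h1 (g * a⁻¹) (mul_mem hg (inv_mem ha)), inv_mul_cancel_right]
  intro g hg
  simpa using (key g hg 1 (one_mem _)).1 (by simpa using hy)

/-- Moving the base point of a cluster. -/
theorem cl_move (ht : VT G) (o : V) (W : Subgroup (G ≃g G)) (ρ : ℕ) (y : V) (hW : FinOrb W) :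
    ∃ H : Subgroup (G ≃g G), (∀ x, {z | ∃ g ∈ H, g x = z}.Finite) ∧
      ∀ Y : Set V, Y.Finite → o ∈ Y → (∀ a ∈ Y, ∀ g ∈ H, G.dist a (g o) ≤ ρ → g o ∈ Y) →
        (MulAction.orbit (Cl G W ρ {y}) y).ncard ≤ Y.ncard := by
  obtain ⟨θ, rfl⟩ := ht y o
  have hle : Cl G W ρ {y} ≤ W := (Subgroup.closure_le _).2 fun w hw => hw.1
  refine ⟨(Cl G W ρ {y}).map (MulAut.conj θ).toMonoidHom, fun x => ?_, fun Y hY ho h => ?_⟩
  · refine ((hW (θ⁻¹ x)).image θ).subset ?_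
    rintro _ ⟨_, ⟨g, hg, rfl⟩, rfl⟩
    exact ⟨g (θ⁻¹ x), ⟨⟨g, hle hg⟩, rfl⟩, rfl⟩
  · have h1 := cl_chain W ρ y (θ ⁻¹' Y) ho fun a ha g hg hd => by
      have h2 := h _ ha _ ⟨g, hg, rfl⟩
      have h3 : ((MulAut.conj θ).toMonoidHom g) (θ y) = θ (g y) := by simp
      rw [h3, dist_iso] at h2
      exact h2 hd
    refine Set.ncard_le_ncard_of_injOn θ ?_ θ.injective.injOn hY
    rintro _ ⟨g, rfl⟩
    exact h1 g g.2

variable [G.LocallyFinite]

theorem exists_ulim (w : ℕ → G ≃g G) {o b : V} (h : ∀ᶠ n in hyperfilter ℕ, w n o = b) :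
    ∃ g : G ≃g G, ∀ x, ∀ᶠ n in hyperfilter ℕ, w n x = g x := by
  have key : ∀ (w : ℕ → G ≃g G) {o b : V}, (∀ᶠ n in hyperfilter ℕ, w n o = b) →
      ∀ x, ∃ y, ∀ᶠ n in hyperfilter ℕ, w n x = y := by
    intro w o b h x
    obtain ⟨y, -, hy⟩ := (Ultrafilter.eventually_exists_mem_iff (f := hyperfilter ℕ)
      (P := fun y n => w n x = y) (finite_ball (G := G) b (G.dist o x))).1 (by
        filter_upwards [h] with n hn
        exact ⟨_, by rw [← hn]; exact (dist_iso _ _ _).le, rfl⟩)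
    exact ⟨y, hy⟩
  choose f hf using key w h
  choose f' hf' using key (fun n => (w n).symm) (o := b) (b := o) (by
    filter_upwards [h] with n hn
    rw [← hn]; simp)
  refine ⟨⟨⟨f, f', fun x => ?_, fun x => ?_⟩, fun {x y} => ?_⟩, hf⟩
  · obtain ⟨n, h1, h2⟩ := ((hf x).and (hf' (f x))).exists
    rw [← h2, ← h1]; simp
  · obtain ⟨n, h1, h2⟩ := ((hf' x).and (hf (f' x))).exists
    rw [← h2, ← h1]; simp
  · obtain ⟨n, h1, h2⟩ := ((hf x).and (hf y)).exists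
    show G.Adj (f x) (f y) ↔ G.Adj x y
    rw [← h1, ← h2]
    exact (w n).map_adj_iff

omit [Fact G.Connected] [G.LocallyFinite] in
/-- The group of pointwise limits along the hyperfilter. -/
def ulim (H : ℕ → Subgroup (G ≃g G)) : Subgroup (G ≃g G) where
  carrier := {g | ∃ w : ℕ → G ≃g G, (∀ n, w n ∈ H n) ∧ ∀ x, ∀ᶠ n in hyperfilter ℕ, w n x = g x}
  one_mem' := ⟨fun _ => 1, fun _ => one_mem _, fun _ => Eventually.of_forall fun _ => rfl⟩
  mul_mem' := by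
    rintro g g' ⟨w, h1, h2⟩ ⟨w', h3, h4⟩
    refine ⟨fun n => w n * w' n, fun n => mul_mem (h1 n) (h3 n), fun x => ?_⟩
    filter_upwards [h4 x, h2 (g' x)] with n e1 e2
    rw [RelIso.mul_apply, RelIso.mul_apply, e1, e2]
  inv_mem' := by
    rintro g ⟨w, h1, h2⟩
    refine ⟨fun n => (w n)⁻¹, fun n => inv_mem (h1 n), fun x => ?_⟩
    filter_upwards [h2 (g⁻¹ x)] with n e1
    apply (w n).injective
    rw [e1]; simp

theorem ell_ulim (hW : WillisSpec) (H : ℕ → Subgroup (G ≃g G))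
    (hH : ∀ n x, {z | ∃ g ∈ H n, g x = z}.Finite) : Ell (ulim H) := by
  rintro g ⟨w, h1, h2⟩ y
  by_contra hinf
  obtain ⟨k, hk⟩ := hW G g y hinf
  have h3 : ∀ᶠ n in hyperfilter ℕ, ∀ i ∈ Set.Iio k, w n ((g ^ i) y) = g ((g ^ i) y) :=
    (eventually_all_finite (Set.finite_Iio k)).2 fun i _ => h2 _
  obtain ⟨n, hn⟩ := h3.exists
  refine hk (w n) (fun i hi => by rw [hn i hi, pow_succ', RelIso.mul_apply]) ((hH n y).subset ?_)
  rintro _ ⟨m, rfl⟩
  exact ⟨_, pow_mem (h1 n) m, rfl⟩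

/-- An infinite chain component in an orbit of a group of elliptic elements gives fat cliques. -/
theorem fatCl_of_chain (hE : EllSpec) (P : Subgroup (G ≃g G)) (hP : Ell P) (o : V) (ρ : ℕ)
    (hinf : {z | Relation.ReflTransGen (fun a b => (∃ g ∈ P, g o = a) ∧ (∃ g ∈ P, g o = b) ∧
      G.dist a b ≤ ρ) o z}.Infinite) (K h : ℕ) : FatCl G K h := by
  set R : V → V → Prop := fun a b => (∃ g ∈ P, g o = a) ∧ (∃ g ∈ P, g o = b) ∧ G.dist a b ≤ ρ
    with hR
  set Y : Set V := {z | Relation.ReflTransGen R o z} with hY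
  have sy : ∀ {a b}, Relation.ReflTransGen R a b → Relation.ReflTransGen R b a := by
    intro a b hab
    induction hab with
    | refl => exact .refl
    | tail _ h2 ih => exact .head ⟨h2.2.1, h2.1, by rw [dcomm]; exact h2.2.2⟩ ih
  have mp : ∀ g ∈ P, ∀ {a b}, Relation.ReflTransGen R a b →
      Relation.ReflTransGen R (g a) (g b) := by
    intro g hg a b hab
    refine hab.lift g ?_
    rintro _ _ ⟨⟨x, hx, rfl⟩, ⟨y, hy, rfl⟩, hd⟩
    exact ⟨⟨g * x, mul_mem hg hx, rfl⟩, ⟨g * y, mul_mem hg hy, rfl⟩, by rwa [dist_iso]⟩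
  have ob : ∀ z ∈ Y, ∃ g ∈ P, g o = z := by
    intro z hz
    induction hz with
    | refl => exact ⟨1, one_mem _, rfl⟩
    | tail _ h2 _ => exact h2.2.1
  have st : ∀ g ∈ P, ∀ x ∈ Y, g x ∈ Y → ∀ z ∈ Y, g z ∈ Y := fun g hg x hx h z hz =>
    Relation.ReflTransGen.trans h (mp g hg ((sy hx).trans hz))
  have : Infinite Y := hinf.to_subtype
  let o' : Y := ⟨o, .refl⟩
  have rc : ∀ z (hz : Relation.ReflTransGen R o z), (rips G Y ρ).Reachable o' ⟨z, hz⟩ := by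
    intro z hz
    induction hz with
    | refl => exact Reachable.refl _
    | @tail b c h1 h2 ih =>
      by_cases e : b = c
      · subst e; exact ih
      · exact ih.trans (Adj.reachable ⟨fun e' => e (congrArg Subtype.val e'), h2.2.2⟩)
  have : Fact (rips G Y ρ).Connected :=
    ⟨⟨fun u v => (rc u.1 u.2).symm.trans (rc v.1 v.2)⟩⟩
  let _ : (rips G Y ρ).LocallyFinite := fun u => (((finite_ball (G := G) u.1 ρ).preimage
    Subtype.val_injective.injOn).subset fun v hv => hv.2).fintype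
  let Q : Subgroup (rips G Y ρ ≃g rips G Y ρ) :=
    { carrier := {φ | ∃ g ∈ P, ∀ u : Y, (φ u : V) = g u}
      one_mem' := ⟨1, one_mem _, fun _ => rfl⟩
      mul_mem' := by
        rintro φ ψ ⟨g, h1, h2⟩ ⟨g', h3, h4⟩
        exact ⟨g * g', mul_mem h1 h3, fun u => by
          rw [RelIso.mul_apply, RelIso.mul_apply, h2, h4]⟩
      inv_mem' := by
        rintro φ ⟨g, h1, h2⟩
        refine ⟨g⁻¹, inv_mem h1, fun u => g.injective ?_⟩
        rw [← h2]; simp }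
  have hQ : Ell Q := by
    rintro φ ⟨g, h1, h2⟩ x
    have h3 : ∀ n : ℕ, (((φ ^ n) x : Y) : V) = (g ^ n) x := by
      intro n
      induction n with
      | zero => rfl
      | succ n ih => rw [pow_succ', pow_succ', RelIso.mul_apply, RelIso.mul_apply, h2, ih]
    refine ((hP g h1 x).preimage Subtype.val_injective.injOn).subset ?_
    rintro _ ⟨n, rfl⟩
    exact ⟨n, (h3 n).symm⟩
  have tr : ∀ x y : Y, ∃ φ ∈ Q, φ x = y := by
    intro x y
    obtain ⟨a, ha, e1⟩ := ob x x.2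
    obtain ⟨b, hb, e2⟩ := ob y y.2
    have e3 : (b * a⁻¹) x = y := by rw [← e1, ← e2]; simp
    have hθ : b * a⁻¹ ∈ P := mul_mem hb (inv_mem ha)
    generalize b * a⁻¹ = θ at e3 hθ
    have m1 := st θ hθ x x.2 (e3 ▸ y.2)
    have m2 := st θ⁻¹ (inv_mem hθ) y y.2 (by rw [← e3]; simp)
    refine ⟨⟨⟨fun u => ⟨θ u, m1 u u.2⟩, fun u => ⟨θ⁻¹ u, m2 u u.2⟩,
      fun u => by simp, fun u => by simp⟩, fun {u v} => ?_⟩, ⟨θ, hθ, fun _ => rfl⟩,
      Subtype.ext e3⟩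
    simp [rips, dist_iso, Subtype.ext_iff]
  obtain ⟨M, hM⟩ := (((finite_ball (G := G) o (K + 2 * ρ)).preimage
    (Subtype.val_injective (p := (· ∈ Y))).injOn).image ((rips G Y ρ).dist o')).bddAbove
  refine rips_fatCl' (K' := M + 1) (fun u v huv => ?_) (hE (rips G Y ρ) Q hQ tr (M + 1) h)
  by_contra hlt
  obtain ⟨φ, ⟨g, -, h2⟩, e⟩ := tr u o'
  have h3 : (rips G Y ρ).dist o' (φ v) ≤ M := hM ⟨φ v, by
    have e' : o = g u := by rw [← h2, e]
    show G.dist o (φ v : V) ≤ K + 2 * ρ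
    rw [h2, e', dist_iso]; omega, rfl⟩
  rw [← e, dist_iso] at h3
  omega

theorem clusterSpec : WillisSpec → EllSpec → ClusterSpec := by
  intro hW hE V G _ _ K h ρ ht hno
  by_contra hc
  push Not at hc
  choose W y hf hn using hc
  obtain ⟨o⟩ := (Fact.out : G.Connected).nonempty
  choose H h1 h2 using fun n => cl_move ht o (W n) ρ (y n) (hf n)
  refine hno (fatCl_of_chain hE (ulim H) (ell_ulim hW H h1) o ρ (fun hfin => ?_) K h)
  set R : V → V → Prop := fun a b => (∃ g ∈ ulim H, g o = a) ∧ (∃ g ∈ ulim H, g o = b) ∧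
    G.dist a b ≤ ρ with hR
  set Y : Set V := {z | Relation.ReflTransGen R o z} with hY
  have ob : ∀ z ∈ Y, ∃ g ∈ ulim H, g o = z := by
    intro z hz
    induction hz with
    | refl => exact ⟨1, one_mem _, rfl⟩
    | tail _ h2 _ => exact h2.2.1
  have key : ∀ a ∈ Y, ∀ b ∈ {b | G.dist a b ≤ ρ},
      ∀ᶠ n in hyperfilter ℕ, (∃ g ∈ H n, g o = b) → b ∈ Y := by
    intro a ha b hb
    by_cases e : ∀ᶠ n in hyperfilter ℕ, ∃ g ∈ H n, g o = b
    · have e1 : ∀ n, ∃ g ∈ H n, (∃ g ∈ H n, g o = b) → g o = b := fun n => by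
        by_cases e2 : ∃ g ∈ H n, g o = b
        · obtain ⟨g, g1, g2⟩ := e2
          exact ⟨g, g1, fun _ => g2⟩
        · exact ⟨1, one_mem _, fun e3 => absurd e3 e2⟩
      choose w w1 w2 using e1
      have e3 : ∀ᶠ n in hyperfilter ℕ, w n o = b := e.mono w2
      obtain ⟨g, hg⟩ := exists_ulim w e3
      obtain ⟨n, n1, n2⟩ := (e3.and (hg o)).exists
      exact Eventually.of_forall fun _ _ =>
        Relation.ReflTransGen.tail ha ⟨ob a ha, ⟨g, ⟨w, w1, hg⟩, n2 ▸ n1⟩, hb⟩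
    · exact (Ultrafilter.eventually_not.2 e).mono fun n h1 h2 => absurd h2 h1
  have all := (eventually_all_finite hfin).2 fun a ha =>
    (eventually_all_finite (finite_ball (G := G) a ρ)).2 (key a ha)
  obtain ⟨n, n1, n2⟩ := (all.and (Nat.hyperfilter_le_atTop (eventually_ge_atTop Y.ncard))).exists
  have := h2 n Y hfin .refl fun a ha g hg hd => n1 a ha _ hd ⟨g, hg, rfl⟩
  have := hn n
  have n3 : Y.ncard ≤ n := n2
  omega

end Pool.Agent.MP_77f003_co.H49
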